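import Pool.Agent.MP_55bf9a_co.Mg.Bridge

open Pool.Agent.MP_55bf9a_co

namespace Pool.Agent.Results.MP_55bf9a_co.ChairFree

/-- A finite chair-free graph is `(Γ, IR)`-perfect and `(α, Γ)`-imperfect if and only if it has a
core and, for every core `(X, Y)`, the vertices dominated by `Y` only are adjacent to the vertices
dominated by `X` only. -/
theorem result {V : Type*} [Finite V] (G : SimpleGraph V) (hG : ¬chair.IsIndContained G) :
    ((∀ S : Set V, upperDom (G.induce S) = upperIrr (G.induce S)) ∧
      ¬∀ S : Set V, (G.induce S).indepNum = upperDom (G.induce S)) ↔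
    (∃ X Y : Set V, IsCore G X Y) ∧ ∀ X Y : Set V, IsCore G X Y →
      ∀ u ∈ closedNbhd G Y \ closedNbhd G X, ∀ w ∈ closedNbhd G X \ closedNbhd G Y,
        G.Adj u w :=
  chairFree hG

end Pool.Agent.Results.MP_55bf9a_co.ChairFree
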