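import Pool.Agent.MP_55bf9a_co.Pi2.Complete

open Pool.Agent.MP_55bf9a_co

/-- Recognising the graphs that are `(Γ, IR)`-perfect and `(α, Γ)`-imperfect is complete for the
second universal level of the polynomial hierarchy. -/
theorem Pool.Agent.Results.MP_55bf9a_co.PiTwoComplete.result :
    N793a5b8e.IsCompleteFor PiTwo classLang :=
  P2.class_complete
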